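import Mathlib

set_option autoImplicit false

namespace Pool.Agent.H.MP_9d3c8a_al

open MvPolynomial

abbrev P (F : Type) [Field F] := MvPolynomial ℕ F
abbrev Dr (F : Type) [Field F] := Derivation F (P F) (P F)

variable {F : Type} [Field F]

def W (d : Dr F) : Prop := Set.Finite {i : ℕ | d (X i) ≠ 0}

noncomputable abbrev pd (k : ℕ) : Dr F := pderiv k

noncomputable def hh (a : ℕ) : Dr F := (X a : P F) • pd a

theorem pd_X (k l : ℕ) : pd k (X l : P F) = if k = l then 1 else 0 := by
  split_ifs with h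
  · subst h; exact pderiv_X_self _
  · exact pderiv_X_of_ne (Ne.symm h)

theorem hh_X (a l : ℕ) : hh a (X l : P F) = if a = l then X l else 0 := by
  simp only [hh, Derivation.smul_apply, pd_X, smul_eq_mul]
  split_ifs with h
  · subst h; simp
  · simp

theorem W_zero : W (0 : Dr F) := by simp [W]

theorem W_of {d e f : Dr F} (hd : W d) (he : W e)
    (h : ∀ i, d (X i) = 0 → e (X i) = 0 → f (X i) = 0) : W f := by
  refine (hd.union he).subset ?_
  intro i hi
  by_contra hc
  simp only [Set.mem_union, Set.mem_setOf_eq, not_or, not_not] at hc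
  exact hi (h i hc.1 hc.2)

theorem W_add {d e : Dr F} (hd : W d) (he : W e) : W (d + e) :=
  W_of hd he (fun i h1 h2 => by simp [h1, h2])

theorem W_br {d e : Dr F} (hd : W d) (he : W e) : W ⁅d, e⁆ :=
  W_of hd he (fun i h1 h2 => by simp [Derivation.commutator_apply, h1, h2])

theorem W_smul (p : P F) {d : Dr F} (hd : W d) : W (p • d) :=
  W_of hd hd (fun i h1 _ => by simp [h1])

theorem W_csmul (c : F) {d : Dr F} (hd : W d) : W (c • d) :=
  W_of hd hd (fun i h1 _ => by simp [h1])

theorem W_pd (k : ℕ) : W (pd k : Dr F) := by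
  refine (Set.finite_singleton k).subset ?_
  intro i hi
  by_contra hc
  apply hi
  rw [pd_X, if_neg]
  rintro rfl
  exact hc rfl

theorem W_hh (a : ℕ) : W (hh a : Dr F) := W_smul _ (W_pd a)

theorem br_smul (d e : Dr F) (p : P F) : ⁅d, p • e⁆ = d p • e + p • ⁅d, e⁆ := by
  ext1 q
  simp only [Derivation.commutator_apply, Derivation.smul_apply, smul_eq_mul, Derivation.leibniz,
    Derivation.add_apply]
  ring

theorem ite_der (d : Dr F) (c : Prop) [Decidable c] : d (if c then 1 else 0) = 0 := by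
  split_ifs <;> simp

theorem pd_comm (k j : ℕ) : ⁅(pd k : Dr F), (pd j : Dr F)⁆ = 0 := by
  apply derivation_ext
  intro i
  rw [Derivation.commutator_apply, pd_X, pd_X, ite_der, ite_der]; simp

theorem br_pd (k j : ℕ) (p : P F) : ⁅(pd k : Dr F), p • (pd j : Dr F)⁆ = pd k p • pd j := by
  rw [br_smul, pd_comm]; simp

theorem hh_pd (a j : ℕ) : ⁅(hh a : Dr F), (pd j : Dr F)⁆ = if a = j then - pd j else 0 := by
  rw [← lie_skew, hh, br_pd, pd_X]
  by_cases h : a = j
  · subst h; simp
  · rw [if_neg h, if_neg (Ne.symm h)]; simp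

theorem hh_hh (a b : ℕ) : ⁅(hh a : Dr F), (hh b : Dr F)⁆ = 0 := by
  apply derivation_ext
  intro i
  rw [Derivation.commutator_apply, hh_X, hh_X]
  by_cases h1 : a = i <;> by_cases h2 : b = i <;> simp [h1, h2, hh_X]

theorem smul_eq_zero' {p : P F} {d : Dr F} (h : p • d = 0) : p = 0 ∨ d = 0 := by
  by_cases hp : p = 0
  · exact Or.inl hp
  · right
    ext1 q
    have := congrArg (fun e : Dr F => e (X q)) h
    simpa [hp] using this

theorem br_sub (d e f : Dr F) : ⁅d, e - f⁆ = ⁅d, e⁆ - ⁅d, f⁆ := by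
  apply derivation_ext
  intro i
  simp only [Derivation.commutator_apply, Derivation.sub_apply, map_sub]
  ring

theorem psub_smul (p q : P F) (d : Dr F) : (p - q) • d = p • d - q • d := by
  apply derivation_ext
  intro i
  simp only [Derivation.sub_apply, Derivation.smul_apply, sub_smul]

theorem csub_smul (p q : F) (d : Dr F) : (p - q) • d = p • d - q • d := by
  apply derivation_ext
  intro i
  simp only [Derivation.sub_apply, Derivation.smul_apply, sub_smul]

theorem csmul_eq (c : F) (d : Dr F) : (C c : P F) • d = c • d := by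
  ext1 q; simp [smul_eq_C_mul]

theorem decomp {d : Dr F} (hd : W d) : d = ∑ j ∈ hd.toFinset, d (X j) • pd j := by
  apply derivation_ext
  intro i
  have : ∀ s : Finset ℕ, (∑ j ∈ s, d (X j) • (pd j : Dr F)) (X i) =
      ∑ j ∈ s, d (X j) * pd j (X i : P F) := by
    intro s
    induction s using Finset.induction_on with
    | empty => simp
    | insert a s ha ih => rw [Finset.sum_insert ha, Finset.sum_insert ha, ← ih]; rfl
  rw [this]
  simp only [pd_X, mul_ite, mul_one, mul_zero, Finset.sum_ite_eq', Set.Finite.mem_toFinset,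
    Set.mem_setOf_eq]
  split_ifs with h
  · rfl
  · simpa using h

theorem W_ind' (Q : Dr F → Prop) (h0 : Q 0)
    (hadd : ∀ d e, W d → W e → Q d → Q e → Q (d + e))
    (hm : ∀ (p : P F) (j : ℕ), Q (p • pd j)) (d : Dr F) (hd : W d) : Q d := by
  have : ∀ s : Finset ℕ, W (∑ j ∈ s, d (X j) • (pd j : Dr F)) ∧
      Q (∑ j ∈ s, d (X j) • (pd j : Dr F)) := by
    intro s
    induction s using Finset.induction_on with
    | empty => simpa using ⟨W_zero, h0⟩
    | insert a s ha ih =>
      rw [Finset.sum_insert ha]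
      exact ⟨W_add (W_smul _ (W_pd a)) ih.1, hadd _ _ (W_smul _ (W_pd a)) ih.1 (hm _ _) ih.2⟩
  rw [decomp hd]
  exact (this _).2

theorem W_ind (Q : Dr F → Prop) (h0 : Q 0)
    (hadd : ∀ d e, W d → W e → Q d → Q e → Q (d + e))
    (hm : ∀ (α : ℕ →₀ ℕ) (c : F) (j : ℕ), Q ((monomial α c : P F) • pd j)) (d : Dr F)
    (hd : W d) : Q d := by
  refine W_ind' Q h0 hadd (fun p j => ?_) d hd
  induction p using MvPolynomial.induction_on' with
  | monomial α c => exact hm α c j
  | add p q hp hq =>
    rw [add_smul]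
    exact hadd _ _ (W_smul _ (W_pd j)) (W_smul _ (W_pd j)) hp hq

theorem deg_pd (k d : ℕ) (p : P F) (h : p.totalDegree ≤ d + 1) : (pd k p).totalDegree ≤ d := by
  rw [totalDegree, Finset.sup_le_iff]
  intro m hm
  rw [mem_support_iff, coeff_pderiv] at hm
  have h1 := le_totalDegree (mem_support_iff.mpr (left_ne_zero_of_mul hm))
  rw [Finsupp.sum_add_index' (by simp) (by simp)] at h1
  simp only [Finsupp.sum_single_index] at h1
  omega

variable [CharZero F]

theorem pd_ne {n : ℕ} {p : P F} (h : n ∈ p.vars) : pd n p ≠ 0 := by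
  rw [mem_vars_iff_mem_support] at h
  obtain ⟨m, hm, hn⟩ := h
  intro h0
  have h1 := coeff_pderiv (i := n) p (m - Finsupp.single n 1)
  have h2 : m - Finsupp.single n 1 + Finsupp.single n 1 = m :=
    Finsupp.sub_add_single_one_cancel (Finsupp.mem_support_iff.mp hn)
  rw [h2, show pderiv n p = 0 from h0] at h1
  have h3 : (((m - Finsupp.single n 1 : ℕ →₀ ℕ) n : ℕ) : F) + 1 ≠ 0 := by
    exact Nat.cast_add_one_ne_zero _
  exact mul_ne_zero (mem_support_iff.mp hm) h3 (by simpa using h1.symm)

theorem const_of {p : P F} (h : ∀ k, pd k p = 0) : ∃ c, p = C c := by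
  refine ⟨_, vars_eq_empty_iff_eq_C.mp ?_⟩
  rw [Finset.eq_empty_iff_forall_notMem]
  intro n hn
  exact pd_ne hn (h n)

theorem V_const {G : Dr F} (h : ∀ k, ⁅(pd k : Dr F), G⁆ = 0) (l : ℕ) : ∃ c, G (X l) = C c := by
  apply const_of
  intro k
  have := congrArg (fun e : Dr F => e (X l)) (h k)
  simp only [Derivation.commutator_apply] at this
  rw [pd_X, ite_der] at this
  simpa using this

theorem V_weight {G : Dr F} (h : ∀ k, ⁅(pd k : Dr F), G⁆ = 0) (a l : ℕ) :
    ⁅(hh a : Dr F), G⁆ (X l) = if a = l then - G (X l) else 0 := by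
  obtain ⟨c, hc⟩ := V_const h l
  rw [Derivation.commutator_apply, hh_X, hc, derivation_C]
  split_ifs
  · rw [hc]; simp
  · simp

structure Au (θ : Dr F → Dr F) : Prop where
  mem : ∀ d, W d → W (θ d)
  surj : ∀ e, W e → ∃ d, W d ∧ θ d = e
  inj : ∀ d e, W d → W e → θ d = θ e → d = e
  add : ∀ d e, W d → W e → θ (d + e) = θ d + θ e
  br : ∀ d e, W d → W e → θ ⁅d, e⁆ = ⁅θ d, θ e⁆
  smul : ∀ (c : F) d, W d → θ (c • d) = c • θ d

namespace Au
variable {θ : Dr F → Dr F} (H : Au θ)
include H

omit [CharZero F] in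
theorem zero : θ 0 = 0 := by
  have := H.smul 0 0 W_zero
  simpa using this

omit [CharZero F] in
theorem D_ne (k : ℕ) : θ (pd k) ≠ 0 := by
  intro h
  have := H.inj _ _ (W_pd k) W_zero (h.trans H.zero.symm)
  have h2 := congrArg (fun e : Dr F => e (X k)) this
  simp at h2

omit [CharZero F] in
theorem D_comm (k l : ℕ) : ⁅θ (pd k), θ (pd l)⁆ = 0 := by
  rw [← H.br _ _ (W_pd k) (W_pd l), pd_comm, H.zero]

theorem lemA {f : P F} (hf : ∀ k, θ (pd k) f = 0) : ∃ c, f = C c := by
  choose T hW hT using fun k => H.surj (f • θ (pd k)) (W_smul _ (H.mem _ (W_pd k)))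
  have h1 : ∀ k l, ⁅(pd l : Dr F), T k⁆ = 0 := by
    intro k l
    apply H.inj _ _ (W_br (W_pd l) (hW k)) W_zero
    rw [H.br _ _ (W_pd l) (hW k), hT, br_smul, hf, H.D_comm, H.zero]; simp
  choose t ht using fun k l => V_const (h1 k) l
  have h2 : ∀ a k, a ≠ k → θ (hh a) f • θ (pd k) = (- t k a) • θ (pd a) := by
    intro a k hak
    have e1 : ⁅(hh a : Dr F), T k⁆ = (- t k a) • pd a := by
      apply derivation_ext
      intro l
      rw [V_weight (h1 k), Derivation.smul_apply, pd_X]
      split_ifs with h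
      · subst h; rw [ht]; simp [smul_eq_C_mul]
      · simp
    have e2 := H.br _ _ (W_hh a) (hW k)
    rw [e1, H.smul _ _ (W_pd a), hT, br_smul, ← H.br _ _ (W_hh a) (W_pd k), hh_pd, if_neg hak,
      H.zero] at e2
    rw [e2]; simp
  have h3 : ∀ a, a ≠ 0 → t 0 a = 0 := by
    intro a ha
    have e1 := h2 a 0 ha
    have e2 := h2 a (a + 1) (by omega)
    have e3 : θ (hh a) f • (t (a + 1) a • θ (pd 0) - t 0 a • θ (pd (a + 1))) = 0 := by
      rw [smul_sub, smul_comm, e1, smul_comm, smul_comm (θ (hh a) f), e2, smul_smul, smul_smul]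
      rw [← sub_smul]
      have : -t 0 a * t (a + 1) a - t 0 a * -t (a + 1) a = 0 := by ring
      rw [this, zero_smul]
    rcases smul_eq_zero' e3 with h | h
    · rw [h, zero_smul] at e1
      have := (smul_eq_zero.mp e1.symm).resolve_right (H.D_ne a)
      simpa using this
    · rw [sub_eq_zero, ← H.smul _ _ (W_pd _), ← H.smul _ _ (W_pd _)] at h
      have := H.inj _ _ (W_csmul _ (W_pd _)) (W_csmul _ (W_pd _)) h
      have h4 := congrArg (fun e : Dr F => e (X (a + 1))) this
      simpa using h4.symm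
  have h4 : T 0 = t 0 0 • pd 0 := by
    apply derivation_ext
    intro l
    rw [ht, Derivation.smul_apply, pd_X]
    split_ifs with h
    · subst h; simp [smul_eq_C_mul]
    · rw [h3 l (Ne.symm h)]; simp
  have h5 := hT 0
  rw [h4, H.smul _ _ (W_pd 0), ← csmul_eq, ← sub_eq_zero, ← psub_smul] at h5
  have := (smul_eq_zero' h5).resolve_right (H.D_ne 0)
  exact ⟨t 0 0, (sub_eq_zero.mp this).symm⟩

theorem lemB : ∃ (f : P F) (b : ℕ) (c : F), c ≠ 0 ∧ θ (pd b) f = C c ∧
    ∀ k, ∃ c', θ (pd k) f = C c' := by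
  by_contra hc
  have h0 : ∀ f : P F, (∀ k, ∃ c', θ (pd k) f = C c') → ∃ c, f = C c := by
    intro f hf
    apply H.lemA
    intro k
    obtain ⟨c, hc'⟩ := hf k
    by_contra hne
    exact hc ⟨f, k, c, by rintro rfl; exact hne (by simpa using hc'), hc', hf⟩
  have step : ∀ (E : Dr F) (f : P F) (k : ℕ), W E → θ E = f • θ (pd 0) →
      θ ⁅(pd k : Dr F), E⁆ = θ (pd k) f • θ (pd 0) := by
    intro E f k hE h
    rw [H.br _ _ (W_pd k) hE, h, br_smul, H.D_comm]; simp
  have stepX : ∀ (E : Dr F) (k l : ℕ), ⁅(pd k : Dr F), E⁆ (X l) = pd k (E (X l)) := by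
    intro E k l
    rw [Derivation.commutator_apply, pd_X, ite_der, sub_zero]
  have key : ∀ (d : ℕ) (E : Dr F) (f : P F), W E → (∀ l, (E (X l)).totalDegree ≤ d) →
      θ E = f • θ (pd 0) → ∃ c, f = C c := by
    intro d
    induction d with
    | zero =>
      intro E f hE hd h
      apply H.lemA
      intro k
      have e1 : ⁅(pd k : Dr F), E⁆ = 0 := by
        apply derivation_ext
        intro l
        rw [stepX, totalDegree_eq_zero_iff_eq_C.mp (Nat.le_zero.mp (hd l))]
        simp
      have e2 := step E f k hE h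
      rw [e1, H.zero] at e2
      exact (smul_eq_zero' e2.symm).resolve_right (H.D_ne 0)
    | succ d ih =>
      intro E f hE hd h
      apply h0
      intro k
      exact ih _ _ (W_br (W_pd k) hE) (fun l => by rw [stepX]; exact deg_pd _ _ _ (hd l))
        (step E f k hE h)
  obtain ⟨E, hE, h⟩ := H.surj ((X 0 : P F) • θ (pd 0)) (W_smul _ (H.mem _ (W_pd 0)))
  obtain ⟨c, hc⟩ := key (hE.toFinset.sup (fun l => (E (X l)).totalDegree)) E (X 0) hE (by
    intro l
    by_cases hl : E (X l) = 0
    · simp [hl]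
    · exact Finset.le_sup (f := fun l => (E (X l)).totalDegree) (by simpa using hl)) h
  have := congrArg (fun p : P F => pd 0 p) hc
  simp at this

theorem lemC (i : ℕ) : ∃ y : P F, (∀ k, θ (pd k) y = if k = i then 1 else 0) ∧
    ∀ a, θ (hh a) y = if a = i then y else 0 := by
  obtain ⟨f, b, c, hc, hb, hf⟩ := H.lemB
  have one : ∀ (c : Prop) [Decidable c] (d : Dr F), W d →
      θ ((if c then (1 : P F) else 0) • d) = if c then θ d else 0 := by
    intro c _ d _
    split_ifs
    · rw [one_smul]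
    · rw [zero_smul, H.zero]
  have comm : ∀ (d e : Dr F) (p : P F), W d → W e → θ d (θ e p) = θ ⁅d, e⁆ p + θ e (θ d p) := by
    intro d e p hd he
    rw [H.br _ _ hd he, Derivation.commutator_apply]; ring
  obtain ⟨y0, hy0⟩ : ∃ y : P F, ∀ k, θ (pd k) y = if k = i then 1 else 0 := by
    refine ⟨c⁻¹ • θ ((X i : P F) • pd b) f, fun k => ?_⟩
    obtain ⟨c', hc'⟩ := hf k
    rw [Derivation.map_smul, comm _ _ _ (W_pd k) (W_smul _ (W_pd b)), br_pd, pd_X,
      one _ _ (W_pd b), hc', derivation_C]
    split_ifs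
    · rw [hb, add_zero, smul_eq_C_mul, ← C_mul, inv_mul_cancel₀ hc, C_1]
    · simp
  have hw : ∀ y : P F, (∀ k, θ (pd k) y = if k = i then 1 else 0) → ∀ a k,
      θ (pd k) (θ (hh a) y) = if k = a then (if a = i then 1 else 0) else 0 := by
    intro y hy a k
    rw [comm _ _ _ (W_pd k) (W_hh a), hy, ite_der, add_zero, hh, br_pd, pd_X, one _ _ (W_pd a)]
    split_ifs with h1 h2
    · rw [hy, if_pos h2]
    · rw [hy, if_neg h2]
    · simp
  obtain ⟨c0, hc0⟩ := H.lemA (f := θ (hh i) y0 - y0) (by
    intro k; rw [map_sub, hw y0 hy0, hy0]; simp)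
  have hy : ∀ k, θ (pd k) (y0 + C c0) = if k = i then 1 else 0 := by
    intro k; rw [map_add, hy0, derivation_C, add_zero]
  have hi : θ (hh i) (y0 + C c0) = y0 + C c0 := by
    rw [map_add, derivation_C, ← hc0]; ring
  refine ⟨y0 + C c0, hy, fun a => ?_⟩
  split_ifs with ha
  · rw [ha, hi]
  · obtain ⟨c1, hc1⟩ := H.lemA (f := θ (hh a) (y0 + C c0)) (by
      intro k; rw [hw _ hy, if_neg ha]; simp)
    have := comm _ _ (y0 + C c0) (W_hh i) (W_hh a)
    rw [hi, hc1, derivation_C, hh_hh, H.zero] at this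
    rw [hc1]; simpa using this.symm

theorem lemD (i : ℕ) (y : P F) (hy : ∀ k, θ (pd k) y = if k = i then 1 else 0)
    (hy' : ∀ a, θ (hh a) y = if a = i then y else 0) (E : Dr F) (hE : W E) :
    θ ((X i : P F) • E) = y • θ E := by
  refine W_ind (fun E => θ ((X i : P F) • E) = y • θ E) ?_ ?_ ?_ E hE
  · simp [H.zero]
  · intro d e hd he h1 h2
    rw [smul_add, H.add _ _ (W_smul _ hd) (W_smul _ he), H.add _ _ hd he, h1, h2, smul_add]
  · intro α c j
    induction hn : α.sum (fun _ e => e) using Nat.strong_induction_on generalizing α c with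
    | _ n ih =>
    set m : Dr F := (monomial α c : P F) • pd j with hm
    have hWm : W m := W_smul _ (W_pd j)
    obtain ⟨E', hE', h⟩ := H.surj (y • θ m) (W_smul _ (H.mem _ hWm))
    have ih' : ∀ k, θ ((X i : P F) • ⁅(pd k : Dr F), m⁆) = y • θ ⁅(pd k : Dr F), m⁆ := by
      intro k
      rw [hm, br_pd, pderiv_monomial]
      by_cases hk : α k = 0
      · simp [hk, H.zero]
      · refine ih _ ?_ _ _ rfl
        rw [← hn]
        conv_rhs => rw [← Finsupp.sub_add_single_one_cancel hk]
        rw [Finsupp.sum_add_index' (by simp) (by simp)]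
        simp
    have h1 : ∀ k, ⁅(pd k : Dr F), E' - (X i : P F) • m⁆ = 0 := by
      intro k
      rw [br_sub, sub_eq_zero]
      apply H.inj _ _ (W_br (W_pd k) hE') (W_br (W_pd k) (W_smul _ hWm))
      rw [H.br _ _ (W_pd k) hE', h, br_smul, br_smul,
        H.add _ _ (W_smul _ hWm) (W_smul _ (W_br (W_pd k) hWm)), ih', hy, pd_X,
        H.br _ _ (W_pd k) hWm]
      split_ifs
      · rw [one_smul, one_smul]
      · rw [zero_smul, zero_smul, H.zero]
    have hwm : ∀ a, ⁅(hh a : Dr F), m⁆ = ((α a : F) - if a = j then 1 else 0) • m := by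
      intro a
      rw [hm, br_smul, hh_pd, hh, Derivation.smul_apply, smul_eq_mul, X_mul_pderiv_monomial,
        csub_smul, smul_assoc, Nat.cast_smul_eq_nsmul]
      split_ifs <;> simp [sub_eq_add_neg]
    have h2 : ∀ a, ⁅(hh a : Dr F), E' - (X i : P F) • m⁆ =
        (((α a : F) - if a = j then 1 else 0) + if a = i then 1 else 0) •
          (E' - (X i : P F) • m) := by
      intro a
      rw [br_sub, smul_sub]
      congr 1
      · apply H.inj _ _ (W_br (W_hh a) hE') (W_csmul _ hE')
        rw [H.br _ _ (W_hh a) hE', H.smul _ _ hE', h, br_smul, ← H.br _ _ (W_hh a) hWm, hwm,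
          H.smul _ _ hWm, hy', add_smul, smul_comm y, add_comm]
        split_ifs <;> simp
      · rw [br_smul, hwm, hh_X, add_smul, smul_comm (X i : P F), add_comm]
        split_ifs <;> simp
    have h3 : E' - (X i : P F) • m = 0 := by
      set G := E' - (X i : P F) • m
      apply derivation_ext
      intro l
      by_contra hl
      have hl' : G (X l) ≠ 0 := by simpa using hl
      have e : ∀ a, (((α a : F) - if a = j then 1 else 0) + if a = i then 1 else 0) =
          if a = l then -1 else 0 := by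
        intro a
        have := V_weight h1 a l
        rw [h2, Derivation.smul_apply] at this
        apply smul_left_injective F hl'
        simp only
        rw [this]
        split_ifs <;> simp
      have e' : ∀ a, (((α a : ℤ) - if a = j then 1 else 0) + if a = i then 1 else 0) =
          if a = l then -1 else 0 := by
        intro a
        have := e a
        apply Int.cast_injective (α := F)
        push_cast
        exact this
      have e1 := e' l
      have e2 := e' i
      grind
    rw [sub_eq_zero] at h3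
    rw [← h, h3]

theorem main : ∃ φ : P F ≃ₐ[F] P F,
    (∀ n : ℕ, Set.Finite {i : ℕ | n ∈ (φ (X i)).vars} ∧
      Set.Finite {i : ℕ | n ∈ (φ.symm (X i)).vars}) ∧
    ∀ d : Dr F, W d → ∀ f : P F, θ d f = φ (d (φ.symm f)) := by
  choose y hy hy' using H.lemC
  let ψ : P F →ₐ[F] P F := aeval y
  have h1 : ∀ (p : P F) (E : Dr F), W E → θ (p • E) = ψ p • θ E := by
    intro p
    induction p using MvPolynomial.induction_on with
    | C a =>
      intro E hE
      rw [csmul_eq, H.smul _ _ hE, ← csmul_eq]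
      simp [ψ]
    | add p q hp hq =>
      intro E hE
      rw [add_smul, H.add _ _ (W_smul _ hE) (W_smul _ hE), hp E hE, hq E hE, map_add, add_smul]
    | mul_X p i hp =>
      intro E hE
      rw [mul_smul, hp _ (W_smul _ hE), H.lemD i (y i) (hy i) (hy' i) E hE, map_mul, mul_smul]
      simp [ψ]
  have h2 : ∀ (k : ℕ) (p : P F), θ (pd k) (ψ p) = ψ (pd k p) := by
    intro k p
    induction p using MvPolynomial.induction_on with
    | C a => simp [ψ]
    | add p q hp hq => simp only [map_add, hp, hq]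
    | mul_X p i hp =>
      have : ψ (X i) = y i := by simp [ψ]
      simp only [map_mul, Derivation.leibniz, smul_eq_mul, map_add, hp, this, hy, pd_X]
      split_ifs <;> simp
  have h3 : ∀ d : Dr F, W d → ∀ p, θ d (ψ p) = ψ (d p) := by
    refine W_ind' _ ?_ ?_ ?_
    · intro p; simp [H.zero]
    · intro d e hd he e1 e2 p
      rw [H.add _ _ hd he, Derivation.add_apply, Derivation.add_apply, e1, e2, map_add]
    · intro q j p
      rw [h1 _ _ (W_pd j), Derivation.smul_apply, Derivation.smul_apply, h2, smul_eq_mul,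
        smul_eq_mul, map_mul]
  have hinj : Function.Injective ψ := by
    rw [injective_iff_map_eq_zero]
    intro p hp
    have := h1 p _ (W_pd 0)
    rw [hp, zero_smul, ← H.zero] at this
    have h4 := H.inj _ _ (W_smul _ (W_pd 0)) W_zero this
    have h5 := congrArg (fun e : Dr F => e (X 0)) h4
    simpa using h5
  have hsurj : Function.Surjective ψ := by
    intro f
    obtain ⟨E, hE, h⟩ := H.surj (f • θ (pd 0)) (W_smul _ (H.mem _ (W_pd 0)))
    refine ⟨E (X 0), ?_⟩
    rw [← h3 E hE, h, Derivation.smul_apply, h2]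
    simp
  let φ := AlgEquiv.ofBijective ψ ⟨hinj, hsurj⟩
  have hφ : ∀ p, φ p = ψ p := fun p => rfl
  have h4 : ∀ d : Dr F, W d → ∀ f : P F, θ d f = φ (d (φ.symm f)) := by
    intro d hd f
    rw [hφ, ← h3 d hd, ← hφ, AlgEquiv.apply_symm_apply]
  refine ⟨φ, fun n => ⟨?_, ?_⟩, h4⟩
  · obtain ⟨d, hd, h⟩ := H.surj _ (W_pd (F := F) n)
    refine Set.Finite.subset hd ?_
    intro i hi h0
    apply pd_ne hi
    rw [← h, h4 d hd, AlgEquiv.symm_apply_apply, h0, map_zero]
  · refine Set.Finite.subset (H.mem _ (W_pd (F := F) n)) ?_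
    intro i hi h0
    apply pd_ne hi
    rw [h4 _ (W_pd n)] at h0
    exact (map_eq_zero_iff φ φ.injective).mp h0

end Au

end Pool.Agent.H.MP_9d3c8a_al
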